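import Pool.Agent.R239.EA.F

/-!
# Weighted couplings: genericity, boundary conditions, small perturbations
-/

set_option autoImplicit false

open Finset MeasureTheory ProbabilityTheory Filter Topology

namespace Pool.Agent.U708.EA

open Pool.Agent.R239.EA

variable {d : ℕ}

/-! ### Choice of a factor -/

lemma pick {Ω : Type*} [MeasurableSpace Ω] (P : Measure Ω) [IsProbabilityMeasure P]
    {f B : Ω → ℝ} (hf : Measurable f) (hB : Measurable B) (h0 : ∀ᵐ ω ∂P, f ω ≠ 0)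
    {ε : ENNReal} (hε : 0 < ε) :
    ∃ δ : ℝ, 0 < δ ∧ δ ≤ 1 ∧ P {ω | |f ω| < δ * B ω} ≤ ε := by
  set A : ℕ → Set Ω := fun j => {ω | |f ω| < (1 / ((j : ℝ) + 1)) * |B ω|} with hA
  have hmeas : ∀ j, MeasurableSet (A j) := by
    intro j
    exact measurableSet_lt (by fun_prop) (by fun_prop)
  have hanti : Antitone A := by
    intro i j hij ω hω
    simp only [hA, Set.mem_ofPred_eq] at hω ⊢
    refine hω.trans_le ?_
    have h1 : 1 / ((j : ℝ) + 1) ≤ 1 / ((i : ℝ) + 1) := by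
      have : (i : ℝ) ≤ j := by exact_mod_cast hij
      exact one_div_le_one_div_of_le (by positivity) (by linarith)
    exact mul_le_mul_of_nonneg_right h1 (abs_nonneg _)
  have hlim := tendsto_measure_iInter_atTop (μ := P) (s := A)
    (fun j => (hmeas j).nullMeasurableSet) hanti ⟨0, measure_ne_top _ _⟩
  have hnull : P (⋂ j, A j) = 0 := by
    refine measure_mono_null ?_ (ae_iff.1 h0)
    intro ω hω
    simp only [Set.mem_ofPred_eq, ne_eq, not_not]
    rw [Set.mem_iInter] at hω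
    by_contra hne
    have hpos : 0 < |f ω| := abs_pos.2 hne
    obtain ⟨j, hj⟩ := exists_nat_gt (|B ω| / |f ω|)
    have h1 := hω j
    simp only [hA, Set.mem_ofPred_eq] at h1
    rw [div_lt_iff₀ hpos] at hj
    have h2 : (0 : ℝ) < (j : ℝ) + 1 := by positivity
    rw [one_div, inv_mul_eq_div, lt_div_iff₀ h2] at h1
    nlinarith
  rw [hnull] at hlim
  obtain ⟨j, hj⟩ := ((tendsto_order.1 hlim).2 ε hε).exists
  refine ⟨1 / ((j : ℝ) + 1), by positivity, ?_, ?_⟩
  · rw [div_le_one (by positivity)]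
    have : (0 : ℝ) ≤ j := Nat.cast_nonneg j
    linarith
  · refine (measure_mono ?_).trans hj.le
    intro ω hω
    simp only [hA, Set.mem_ofPred_eq] at hω ⊢
    refine hω.trans_le ?_
    exact mul_le_mul_of_nonneg_left (le_abs_self _) (by positivity)

/-! ### Genericity -/

variable (μ : Measure ℝ) [IsProbabilityMeasure μ]

lemma gn_w (hat : ∀ x, μ {x} = 0) (w : (Fin d → ℤ) × Fin d → ℝ) (hw : ∀ e, w e ≠ 0) :
    ∀ᵐ J ∂(Lw μ d), Gn (fun e => w e * J e) := by
  classical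
  unfold Lw Gn
  rw [ae_all_iff]; intro T1
  rw [ae_all_iff]; intro T2
  by_cases hd : Disjoint T1 T2
  · by_cases he : ∃ e, e ∈ T1 ∨ e ∈ T2
    · obtain ⟨e0, he0⟩ := he
      have h1 := Pool.Agent.TH761.EA.lin_null μ hat (T1 ∪ T2)
        (fun e => if e ∈ T1 then w e else -w e) (e0 := e0)
        (Finset.mem_union.2 he0) (by
          have := hw e0
          split_ifs
          · exact this
          · exact neg_ne_zero.2 this)
      rw [ae_iff]
      refine measure_mono_null ?_ h1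
      intro J hJ
      simp only [Set.mem_ofPred_eq, Classical.not_imp, ne_eq, not_not] at hJ ⊢
      have h2 := hJ.2.2
      rw [Finset.sum_union hd]
      have h3 : ∑ e ∈ T1, J e * (if e ∈ T1 then w e else -w e) = ∑ e ∈ T1, w e * J e :=
        Finset.sum_congr rfl fun e he => by rw [if_pos he, mul_comm]
      have h4 : ∑ e ∈ T2, J e * (if e ∈ T1 then w e else -w e) = -∑ e ∈ T2, w e * J e := by
        rw [← Finset.sum_neg_distrib]
        refine Finset.sum_congr rfl fun e he => ?_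
        rw [if_neg (fun h => (Finset.disjoint_left.1 hd) h he)]
        ring
      rw [h3, h4, h2]; ring
    · exact Filter.Eventually.of_forall fun J _ hex => absurd hex he
  · exact Filter.Eventually.of_forall fun J hex => absurd hex hd

omit μ in
lemma gs_of_gn {K : (Fin d → ℤ) × Fin d → ℝ} (h : Gn K) {T : Finset ((Fin d → ℤ) × Fin d)}
    (hT : T.Nonempty) {c : (Fin d → ℤ) × Fin d → ℝ} (hc : ∀ e, c e = 1 ∨ c e = -1) :
    ∑ e ∈ T, c e * K e ≠ 0 := by
  classical
  intro h0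
  obtain ⟨e0, he0⟩ := hT
  refine h (T.filter fun e => c e = 1) (T.filter fun e => ¬ c e = 1)
    (Finset.disjoint_filter_filter_not _ _ _) ⟨e0, ?_⟩ ?_
  · rw [Finset.mem_filter, Finset.mem_filter]
    by_cases h1 : c e0 = 1
    · exact Or.inl ⟨he0, h1⟩
    · exact Or.inr ⟨he0, h1⟩
  · have h1 := Finset.sum_filter_add_sum_filter_not T (fun e => c e = 1) (fun e => c e * K e)
    have h2 : ∑ e ∈ T.filter (fun e => c e = 1), c e * K e =
        ∑ e ∈ T.filter (fun e => c e = 1), K e :=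
      Finset.sum_congr rfl fun e he => by rw [(Finset.mem_filter.1 he).2, one_mul]
    have h3 : ∑ e ∈ T.filter (fun e => ¬ c e = 1), c e * K e =
        -∑ e ∈ T.filter (fun e => ¬ c e = 1), K e := by
      rw [← Finset.sum_neg_distrib]
      refine Finset.sum_congr rfl fun e he => ?_
      rcases hc e with h | h
      · exact absurd h (Finset.mem_filter.1 he).2
      · rw [h, neg_one_mul]
    rw [h2, h3, h0] at h1
    linarith

omit μ in
lemma gn_of_gs {K : (Fin d → ℤ) × Fin d → ℝ}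
    (h : ∀ T : Finset ((Fin d → ℤ) × Fin d), T.Nonempty → ∀ c : (Fin d → ℤ) × Fin d → ℝ,
      (∀ e, c e = 1 ∨ c e = -1) → ∑ e ∈ T, c e * K e ≠ 0) : Gn K := by
  classical
  rintro T1 T2 hd ⟨e0, he0⟩ heq
  refine h (T1 ∪ T2) ⟨e0, Finset.mem_union.2 he0⟩ (fun e => if e ∈ T1 then 1 else -1)
    (fun e => by
      by_cases h1 : e ∈ T1
      · left; simp [h1]
      · right; simp [h1]) ?_
  rw [Finset.sum_union hd]
  have h3 : ∑ e ∈ T1, (if e ∈ T1 then (1 : ℝ) else -1) * K e = ∑ e ∈ T1, K e :=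
    Finset.sum_congr rfl fun e he => by rw [if_pos he, one_mul]
  have h4 : ∑ e ∈ T2, (if e ∈ T1 then (1 : ℝ) else -1) * K e = -∑ e ∈ T2, K e := by
    rw [← Finset.sum_neg_distrib]
    refine Finset.sum_congr rfl fun e he => ?_
    rw [if_neg (fun h => (Finset.disjoint_left.1 hd) h he), neg_one_mul]
  rw [h3, h4, heq]; ring

omit μ in
/-- ground states in boxes with arbitrary boundary conditions -/
lemma exists_box_bc (hd : 2 ≤ d) {K : (Fin d → ℤ) × Fin d → ℝ} (hK : Gn K)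
    {κ : (Fin d → ℤ) → ℝ} (hκ : ∀ x, κ x = 1 ∨ κ x = -1) (n : ℕ) :
    ∃ σ, GI (bx 0 n) K σ ∧ ∀ x, x ∉ bx 0 n → σ x = κ x := by
  have hκκ : ∀ x, κ x * κ x = 1 := by
    intro x
    rcases hκ x with h | h <;> rw [h] <;> norm_num
  have hpm : ∀ e : (Fin d → ℤ) × Fin d, κ e.1 * κ (nx e) = 1 ∨ κ e.1 * κ (nx e) = -1 := by
    intro e
    rcases hκ e.1 with h | h <;> rcases hκ (nx e) with h' | h' <;> rw [h, h'] <;> norm_num
  have hG : Gn (fun e => K e * (κ e.1 * κ (nx e))) := by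
    apply gn_of_gs
    intro T hT c hc
    have h1 := gs_of_gn hK hT (c := fun e => c e * (κ e.1 * κ (nx e))) (by
      intro e
      rcases hc e with h | h <;> rcases hpm e with h' | h' <;> simp only [h, h'] <;> norm_num)
    intro h0
    apply h1
    rw [← h0]
    refine Finset.sum_congr rfl fun e _ => ?_
    ring
  obtain ⟨σ, hσ, hout⟩ := exists_box hd hG n
  refine ⟨fun x => κ x * σ x, ⟨fun x => ?_, fun A hA hAB => ?_⟩, fun x hx => ?_⟩
  · show κ x * σ x = 1 ∨ κ x * σ x = -1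
    rcases hκ x with h | h <;> rcases hσ.1 x with h' | h' <;> rw [h, h'] <;> norm_num
  · have h1 := hσ.2 A hA hAB
    have h2 : ∑ᶠ e ∈ dC (A : Set (Fin d → ℤ)), K e * (κ e.1 * κ (nx e)) * (σ e.1 * σ (nx e)) =
        ∑ᶠ e ∈ dC (A : Set (Fin d → ℤ)), K e * ((κ e.1 * σ e.1) * (κ (nx e) * σ (nx e))) := by
      refine finsum_mem_congr rfl fun e he => ?_
      ring
    rw [h2] at h1
    exact h1
  · show κ x * σ x = κ x
    rw [hout x hx, mul_one]

/-! ### Bonds inside a box and bonds which leave it -/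

/-- the bonds with both ends in the box -/
noncomputable def ins (d n : ℕ) : Finset ((Fin d → ℤ) × Fin d) := by
  classical
  exact (tb 0 n).filter fun e => e.1 ∈ bx 0 n ∧ nx e ∈ bx 0 n

/-- the bonds with exactly one end in the box -/
noncomputable def cr (d n : ℕ) : Finset ((Fin d → ℤ) × Fin d) := by
  classical
  exact (tb 0 n).filter fun e => ¬ (e.1 ∈ bx 0 n ↔ nx e ∈ bx 0 n)

omit μ in
lemma mem_ins {n : ℕ} {e : (Fin d → ℤ) × Fin d} :
    e ∈ ins d n ↔ nrm e.1 ≤ n ∧ nrm (nx e) ≤ n := by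
  unfold ins
  rw [Finset.mem_filter, mem_tb, mem_bx, mem_bx, sub_zero, sub_zero]
  tauto

omit μ in
lemma mem_cr {n : ℕ} {e : (Fin d → ℤ) × Fin d} :
    e ∈ cr d n ↔ ¬ (nrm e.1 ≤ n ↔ nrm (nx e) ≤ n) := by
  unfold cr
  rw [Finset.mem_filter, mem_tb, mem_bx, mem_bx, sub_zero, sub_zero]
  tauto

omit μ in
lemma nrm_step (e : (Fin d → ℤ) × Fin d) : nrm (nx e) ≤ nrm e.1 + 1 ∧ nrm e.1 ≤ nrm (nx e) + 1 := by
  have h1 := nrm_nx e
  have h2 := h1
  rw [nrm_sub_comm] at h2
  have h3 := nrm_add (nx e - e.1) e.1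
  have h4 := nrm_add (e.1 - nx e) (nx e)
  rw [sub_add_cancel] at h3 h4
  omega

omit μ in
lemma mem_cr' {n : ℕ} {e : (Fin d → ℤ) × Fin d} :
    e ∈ cr d n ↔ (nrm e.1 = n ∧ nrm (nx e) = n + 1) ∨ (nrm e.1 = n + 1 ∧ nrm (nx e) = n) := by
  rw [mem_cr]
  have := nrm_step e
  omega

/-- the bonds outside `R` with exactly one end in the box -/
noncomputable def crR (R : Set ((Fin d → ℤ) × Fin d)) (n : ℕ) : Finset ((Fin d → ℤ) × Fin d) := by
  classical
  exact (cr d n).filter fun e => e ∉ R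

omit μ in
lemma mem_crR {R : Set ((Fin d → ℤ) × Fin d)} {n : ℕ} {e : (Fin d → ℤ) × Fin d} :
    e ∈ crR R n ↔ e ∈ cr d n ∧ e ∉ R := by
  classical
  unfold crR
  simp only [Finset.mem_filter]

omit μ in
/-- the bonds outside `R` which leave the box are too weak for the box -/
def Iso (R : Set ((Fin d → ℤ) × Fin d)) (n : ℕ) (K : (Fin d → ℤ) × Fin d → ℝ) : Prop :=
  ∀ T1 ∈ (ins d n).powerset, ∀ T2 ∈ (ins d n).powerset, Disjoint T1 T2 →
    (∃ e, e ∈ T1 ∨ e ∈ T2) → ∑ e ∈ crR R n, |K e| ≤ |∑ e ∈ T1, K e - ∑ e ∈ T2, K e|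

omit μ in
lemma iso_agree {R : Set ((Fin d → ℤ) × Fin d)} {n : ℕ} {K : (Fin d → ℤ) × Fin d → ℝ}
    {σ τ : (Fin d → ℤ) → ℝ} (hσ : GA K σ) (hτ : GA K τ) (h : Iso R n K)
    (hR : ∀ e ∈ cr d n, e ∈ R → σ e.1 = τ e.1 ∧ σ (nx e) = τ (nx e))
    {e : (Fin d → ℤ) × Fin d} (he : e ∈ ins d n) :
    e ∉ dC {x | σ x ≠ τ x} := by
  classical
  intro hcon
  set A : Finset (Fin d → ℤ) := (bx 0 n).filter fun x => σ x ≠ τ x with hA
  have hei := mem_ins.1 he
  have hAmem : ∀ x, x ∈ A ↔ nrm x ≤ n ∧ σ x ≠ τ x := by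
    intro x
    rw [hA, Finset.mem_filter, mem_bx, sub_zero]
  have heA : e ∈ dC (A : Set (Fin d → ℤ)) := by
    unfold dC at hcon ⊢
    simp only [Set.mem_ofPred_eq, Finset.mem_coe, hAmem] at hcon ⊢
    tauto
  have hne := dC_nonempty heA
  have hsub : A ⊆ bx 0 n := Finset.filter_subset _ _
  have hfin := dC_finite A.finite_toSet
  set F : Finset ((Fin d → ℤ) × Fin d) := hfin.toFinset with hF
  have hFmem : ∀ e, e ∈ F ↔ e ∈ dC (A : Set (Fin d → ℤ)) := fun e => by
    rw [hF, Set.Finite.mem_toFinset]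
  have h1 := (hσ n).2 A hne hsub
  have h2 := (hτ n).2 A hne hsub
  rw [finsum_mem_eq_finite_toFinset_sum _ hfin, ← hF] at h1 h2
  have hcase : ∀ f ∈ F, f ∉ ins d n → f ∈ crR R n := by
    intro f hf hni
    have h3 := (hFmem f).1 hf
    unfold dC at h3
    simp only [Set.mem_ofPred_eq, Finset.mem_coe, hAmem] at h3
    rw [mem_ins] at hni
    have h4 : f ∈ cr d n := by
      rw [mem_cr]
      tauto
    rw [mem_crR]
    refine ⟨h4, fun hc => ?_⟩
    have h5 := hR f h4 hc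
    tauto
  have hneg : ∀ f ∈ F, f ∈ ins d n → τ f.1 * τ (nx f) = -(σ f.1 * σ (nx f)) := by
    intro f hf hi
    refine prod_neg (hσ 0).1 (hτ 0).1 ?_
    have h3 := (hFmem f).1 hf
    have h4 := mem_ins.1 hi
    unfold dC at h3 ⊢
    simp only [Set.mem_ofPred_eq, Finset.mem_coe, hAmem] at h3 ⊢
    tauto
  have hpm : ∀ (ρ : (Fin d → ℤ) → ℝ), (∀ x, ρ x = 1 ∨ ρ x = -1) →
      ∀ f : (Fin d → ℤ) × Fin d, ρ f.1 * ρ (nx f) = 1 ∨ ρ f.1 * ρ (nx f) = -1 := by
    intro ρ hρ f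
    rcases hρ f.1 with h | h <;> rcases hρ (nx f) with h' | h' <;> rw [h, h'] <;> norm_num
  set X : ℝ := ∑ f ∈ F.filter (fun f => f ∈ ins d n), K f * (σ f.1 * σ (nx f)) with hX
  set B : ℝ := ∑ f ∈ crR R n, |K f| with hB
  have hout : ∀ (ρ : (Fin d → ℤ) → ℝ), (∀ x, ρ x = 1 ∨ ρ x = -1) →
      ∑ f ∈ F.filter (fun f => ¬ f ∈ ins d n), K f * (ρ f.1 * ρ (nx f)) ≤ B := by
    intro ρ hρ
    calc ∑ f ∈ F.filter (fun f => ¬ f ∈ ins d n), K f * (ρ f.1 * ρ (nx f))
        ≤ ∑ f ∈ F.filter (fun f => ¬ f ∈ ins d n), |K f| := by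
          refine Finset.sum_le_sum fun f _ => ?_
          rcases hpm ρ hρ f with h | h
          · rw [h, mul_one]; exact le_abs_self _
          · rw [h, mul_neg, mul_one]; exact neg_le_abs _
      _ ≤ B := by
          refine Finset.sum_le_sum_of_subset_of_nonneg ?_ fun f _ _ => abs_nonneg _
          intro f hf
          rw [Finset.mem_filter] at hf
          exact hcase f hf.1 hf.2
  have e1 := Finset.sum_filter_add_sum_filter_not F (fun f => f ∈ ins d n)
    (fun f => K f * (σ f.1 * σ (nx f)))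
  have e2 := Finset.sum_filter_add_sum_filter_not F (fun f => f ∈ ins d n)
    (fun f => K f * (τ f.1 * τ (nx f)))
  have e3 : ∑ f ∈ F.filter (fun f => f ∈ ins d n), K f * (τ f.1 * τ (nx f)) = -X := by
    rw [hX, ← Finset.sum_neg_distrib]
    refine Finset.sum_congr rfl fun f hf => ?_
    rw [Finset.mem_filter] at hf
    rw [hneg f hf.1 hf.2, mul_neg]
  have o1 := hout σ (hσ 0).1
  have o2 := hout τ (hτ 0).1
  have hXlt : |X| < B := by
    rw [abs_lt]
    constructor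
    · linarith
    · linarith
  -- contradiction with the gap
  set D : Finset ((Fin d → ℤ) × Fin d) := F.filter (fun f => f ∈ ins d n) with hD
  have heD : e ∈ D := Finset.mem_filter.2 ⟨(hFmem e).2 heA, he⟩
  have hDsub : D ⊆ ins d n := fun f hf => (Finset.mem_filter.1 hf).2
  have hgap := h (D.filter fun f => σ f.1 * σ (nx f) = 1)
    (Finset.mem_powerset.2 ((Finset.filter_subset _ _).trans hDsub))
    (D.filter fun f => ¬ σ f.1 * σ (nx f) = 1)
    (Finset.mem_powerset.2 ((Finset.filter_subset _ _).trans hDsub))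
    (Finset.disjoint_filter_filter_not _ _ _) ⟨e, by
      by_cases h3 : σ e.1 * σ (nx e) = 1
      · exact Or.inl (Finset.mem_filter.2 ⟨heD, h3⟩)
      · exact Or.inr (Finset.mem_filter.2 ⟨heD, h3⟩)⟩
  have hXeq : X = ∑ f ∈ D.filter (fun f => σ f.1 * σ (nx f) = 1), K f -
      ∑ f ∈ D.filter (fun f => ¬ σ f.1 * σ (nx f) = 1), K f := by
    have h1 := Finset.sum_filter_add_sum_filter_not D (fun f => σ f.1 * σ (nx f) = 1)
      (fun f => K f * (σ f.1 * σ (nx f)))
    have h2 : ∑ f ∈ D.filter (fun f => σ f.1 * σ (nx f) = 1), K f * (σ f.1 * σ (nx f)) =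
        ∑ f ∈ D.filter (fun f => σ f.1 * σ (nx f) = 1), K f :=
      Finset.sum_congr rfl fun f hf => by rw [(Finset.mem_filter.1 hf).2, mul_one]
    have h3 : ∑ f ∈ D.filter (fun f => ¬ σ f.1 * σ (nx f) = 1), K f * (σ f.1 * σ (nx f)) =
        -∑ f ∈ D.filter (fun f => ¬ σ f.1 * σ (nx f) = 1), K f := by
      rw [← Finset.sum_neg_distrib]
      refine Finset.sum_congr rfl fun f hf => ?_
      rcases hpm σ (hσ 0).1 f with h | h
      · exact absurd h (Finset.mem_filter.1 hf).2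
      · rw [h, mul_neg, mul_one]
    rw [hX, ← h1, h2, h3]; ring
  rw [← hXeq] at hgap
  linarith

end Pool.Agent.U708.EA
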