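import Pool.Agent.U708.EA.Struct

/-!
# The number of modified bonds, and the number of ground states
-/

set_option autoImplicit false

open Finset MeasureTheory ProbabilityTheory Filter Topology

namespace Pool.Agent.U708.EA

open Pool.Agent.R239.EA

variable {d : ℕ}

lemma cr_coord {n : ℕ} {e : (Fin d → ℤ) × Fin d} (h : e ∈ cr d n) :
    (e.1 e.2 = n ∨ e.1 e.2 = -n - 1) ∧ ∀ j, j ≠ e.2 → |e.1 j| ≤ n := by
  rw [mem_cr, nrm_le, nrm_le] at h
  have hn : ∀ j, nx e j = if j = e.2 then e.1 j + 1 else e.1 j := by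
    intro j
    unfold nx
    by_cases hj : j = e.2
    · rw [if_pos hj, Pi.add_apply, hj, u_same]
    · rw [if_neg hj, Pi.add_apply, u_ne hj, add_zero]
  by_cases h1 : ∀ i, |e.1 i| ≤ (n : ℤ)
  · have h2 : ¬ ∀ i, |nx e i| ≤ (n : ℤ) := fun hc => h ⟨fun _ => hc, fun _ => h1⟩
    push Not at h2
    obtain ⟨j, hj⟩ := h2
    rw [hn] at hj
    by_cases hje : j = e.2
    · rw [if_pos hje] at hj
      subst hje
      refine ⟨Or.inl ?_, fun j _ => h1 j⟩
      have h3 := h1 e.2
      rw [abs_le] at h3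
      rcases lt_abs.1 hj with h4 | h4 <;> omega
    · rw [if_neg hje] at hj
      exact absurd (h1 j) (not_le.2 hj)
  · have h2 : ∀ i, |nx e i| ≤ (n : ℤ) := by
      by_contra hc
      exact h ⟨fun h3 => absurd h3 h1, fun h3 => absurd h3 hc⟩
    have h3 : ∀ j, j ≠ e.2 → |e.1 j| ≤ n := by
      intro j hj
      have := h2 j
      rwa [hn, if_neg hj] at this
    refine ⟨Or.inr ?_, h3⟩
    have h4 : ¬ |e.1 e.2| ≤ (n : ℤ) := by
      intro hc
      apply h1
      intro i
      by_cases hi : i = e.2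
      · rw [hi]; exact hc
      · exact h3 i hi
    have h5 := h2 e.2
    rw [hn, if_pos rfl, abs_le] at h5
    rw [abs_le] at h4
    by_contra hc
    apply h4
    constructor <;> omega

lemma cr_card (n : ℕ) : (cr d n).card ≤ 2 * d * (2 * n + 1) ^ (d - 1) := by
  classical
  set A : Fin d → Finset ((Fin d → ℤ) × Fin d) := fun i =>
    (Fintype.piFinset fun j => if j = i then ({(n : ℤ), -(n : ℤ) - 1} : Finset ℤ)
      else Finset.Icc (-(n : ℤ)) n).image fun x => (x, i) with hA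
  have hsub : cr d n ⊆ Finset.univ.biUnion A := by
    intro e he
    obtain ⟨h1, h2⟩ := cr_coord he
    rw [Finset.mem_biUnion]
    refine ⟨e.2, Finset.mem_univ _, ?_⟩
    rw [hA, Finset.mem_image]
    refine ⟨e.1, ?_, rfl⟩
    rw [Fintype.mem_piFinset]
    intro j
    by_cases hj : j = e.2
    · rw [if_pos hj, Finset.mem_insert, Finset.mem_singleton, hj]
      exact h1
    · rw [if_neg hj, Finset.mem_Icc]
      exact abs_le.1 (h2 j hj)
  have hcard : ∀ i, (A i).card ≤ 2 * (2 * n + 1) ^ (d - 1) := by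
    intro i
    refine Finset.card_image_le.trans ?_
    rw [Fintype.card_piFinset]
    have h1 : ∀ j : Fin d, (if j = i then ({(n : ℤ), -(n : ℤ) - 1} : Finset ℤ)
        else Finset.Icc (-(n : ℤ)) n).card ≤ if j = i then 2 else 2 * n + 1 := by
      intro j
      split_ifs
      · exact Finset.card_le_two
      · rw [Int.card_Icc]; omega
    refine (Finset.prod_le_prod' fun j _ => h1 j).trans ?_
    rw [Finset.prod_ite, Finset.prod_const, Finset.prod_const]
    have h2 : (Finset.univ.filter fun j : Fin d => j = i).card = 1 := by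
      rw [Finset.filter_eq']; simp
    have h3 : (Finset.univ.filter fun j : Fin d => ¬ j = i).card = d - 1 := by
      rw [Finset.filter_ne', Finset.card_erase_of_mem (Finset.mem_univ _)]
      simp
    rw [h2, h3, pow_one]
  calc (cr d n).card ≤ (Finset.univ.biUnion A).card := Finset.card_le_card hsub
    _ ≤ ∑ i, (A i).card := Finset.card_biUnion_le
    _ ≤ ∑ _i : Fin d, 2 * (2 * n + 1) ^ (d - 1) := Finset.sum_le_sum fun i _ => hcard i
    _ = 2 * d * (2 * n + 1) ^ (d - 1) := by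
        rw [Finset.sum_const, Finset.card_univ, Fintype.card_fin, smul_eq_mul]; ring

lemma count {i0 : Fin d} {P : Set (Fin d → ℤ)} (hP : ∀ v ∈ P, v i0 = 0) (R : Set ℕ)
    {W : (Fin d → ℤ) × Fin d → ℝ}
    (hW : ∀ e, e ∉ rays i0 P → (∀ r ∈ R, e ∉ cr d r) → W e = 1) (n : ℕ) :
    {e : (Fin d → ℤ) × Fin d | (∀ i, |e.1 i| ≤ (n : ℤ)) ∧ W e ≠ 1}.ncard ≤
      2 * d * (2 * n + 1) ^ (d - 1) * {r ∈ R | r ≤ n}.ncard +
        (n + 1) * {v ∈ P | ∀ i, |v i| ≤ (n : ℤ)}.ncard := by
  classical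
  set Rn : Finset ℕ := (Finset.range (n + 1)).filter fun r => r ∈ R with hRn
  set Pn : Finset (Fin d → ℤ) := (bx 0 n).filter fun v => v ∈ P with hPn
  have e1 : {r ∈ R | r ≤ n} = (Rn : Set ℕ) := by
    ext r
    rw [hRn, Finset.coe_filter]
    simp only [Set.mem_ofPred_eq, Finset.mem_range]
    constructor
    · rintro ⟨h1, h2⟩; exact ⟨by omega, h1⟩
    · rintro ⟨h1, h2⟩; exact ⟨h2, by omega⟩
  have e2 : {v ∈ P | ∀ i, |v i| ≤ (n : ℤ)} = (Pn : Set (Fin d → ℤ)) := by
    ext v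
    rw [hPn, Finset.coe_filter]
    simp only [Set.mem_ofPred_eq, mem_bx, sub_zero, nrm_le]
    tauto
  rw [e1, e2, Set.ncard_coe_finset, Set.ncard_coe_finset]
  have hsub : {e : (Fin d → ℤ) × Fin d | (∀ i, |e.1 i| ≤ (n : ℤ)) ∧ W e ≠ 1} ⊆
      ((Rn.biUnion (cr d) ∪ (Finset.range (n + 1) ×ˢ Pn).image
        (fun q => ((pt i0 q.2 q.1, i0) : (Fin d → ℤ) × Fin d)) :
          Finset ((Fin d → ℤ) × Fin d)) : Set ((Fin d → ℤ) × Fin d)) := by
    rintro e ⟨h1, h2⟩
    rw [Finset.mem_coe, Finset.mem_union]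
    by_cases hr : e ∈ rays i0 P
    · right
      obtain ⟨v, hv, t, rfl⟩ := hr
      rw [← nrm_le] at h1
      simp only at h1
      rw [pt_nrm (hP v hv)] at h1
      rw [Finset.mem_image]
      refine ⟨(t, v), ?_, rfl⟩
      rw [Finset.mem_product, hPn, Finset.mem_filter, mem_bx, sub_zero, Finset.mem_range]
      exact ⟨by simp only; omega, h1.1, hv⟩
    · left
      have h3 : ∃ r ∈ R, e ∈ cr d r := by
        by_contra hc
        push Not at hc
        exact h2 (hW e hr hc)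
      obtain ⟨r, hr, her⟩ := h3
      rw [Finset.mem_biUnion]
      refine ⟨r, ?_, her⟩
      rw [hRn, Finset.mem_filter, Finset.mem_range]
      refine ⟨?_, hr⟩
      rw [mem_cr'] at her
      rw [← nrm_le] at h1
      omega
  refine (Set.ncard_le_ncard hsub (Finset.finite_toSet _)).trans ?_
  rw [Set.ncard_coe_finset]
  refine (Finset.card_union_le _ _).trans (Nat.add_le_add ?_ ?_)
  · calc (Rn.biUnion (cr d)).card ≤ ∑ r ∈ Rn, (cr d r).card := Finset.card_biUnion_le
      _ ≤ ∑ _r ∈ Rn, 2 * d * (2 * n + 1) ^ (d - 1) := by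
          refine Finset.sum_le_sum fun r hr => (cr_card r).trans ?_
          rw [hRn, Finset.mem_filter, Finset.mem_range] at hr
          exact Nat.mul_le_mul le_rfl (Nat.pow_le_pow_left (by omega) _)
      _ = 2 * d * (2 * n + 1) ^ (d - 1) * Rn.card := by
          rw [Finset.sum_const, smul_eq_mul]; ring
  · refine Finset.card_image_le.trans ?_
    rw [Finset.card_product, Finset.card_range]

/-- the cardinality of the set of ground states -/
lemma card_states {P : Set (Fin d → ℤ)}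
    (GS : Set ((Fin d → ℤ) → ℝ)) (F : ((Fin d → ℤ) → ℝ) → ((Fin d → ℤ) → ℝ) → Prop)
    (hex : ∀ s : (Fin d → ℤ) → ℝ, (∀ v, s v = 1 ∨ s v = -1) → ∃ σ ∈ GS, F s σ)
    (huniq : ∀ s σ τ, σ ∈ GS → τ ∈ GS → F s σ → F s τ → τ = σ)
    (hF : ∀ s s' σ, F s σ → F s' σ → ∀ v ∈ P, s v = s' v)
    (hF' : ∀ s s' σ, F s σ → (∀ v ∈ P, s v = s' v) → F s' σ)
    (hall : ∀ σ ∈ GS, ∃ s : (Fin d → ℤ) → ℝ, (∀ v, s v = 1 ∨ s v = -1) ∧ F s σ) :
    Cardinal.mk GS = 2 ^ Cardinal.mk P := by
  classical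
  set sg : (P → Bool) → (Fin d → ℤ) → ℝ := fun b v =>
    if h : v ∈ P then (if b ⟨v, h⟩ then 1 else -1) else 1 with hsg
  have hpm : ∀ b v, sg b v = 1 ∨ sg b v = -1 := by
    intro b v
    simp only [hsg]
    split_ifs <;> simp
  choose f hf1 hf2 using fun b : P → Bool => hex (sg b) (hpm b)
  have hinj : Function.Injective (fun b : P → Bool => (⟨f b, hf1 b⟩ : GS)) := by
    intro b b' h
    have h1 : f b = f b' := congrArg Subtype.val h
    have h2 := hf2 b'
    rw [← h1] at h2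
    have h3 := hF _ _ _ (hf2 b) h2
    funext v
    have h4 := h3 v v.2
    simp only [hsg, Subtype.coe_prop, dite_true, Subtype.coe_eta] at h4
    by_cases hb : b v = true <;> by_cases hb' : b' v = true
    · rw [hb, hb']
    · rw [if_pos hb, if_neg hb'] at h4; norm_num at h4
    · rw [if_neg hb, if_pos hb'] at h4; norm_num at h4
    · rw [Bool.not_eq_true] at hb hb'; rw [hb, hb']
  have hsurj : Function.Surjective (fun b : P → Bool => (⟨f b, hf1 b⟩ : GS)) := by
    rintro ⟨σ, hσ⟩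
    obtain ⟨s, hs, hsF⟩ := hall σ hσ
    obtain ⟨b, hb⟩ : ∃ b : P → Bool, ∀ v : P, b v = true ↔ s v = 1 :=
      ⟨fun v => decide (s v = 1), fun v => by simp⟩
    have hσF : F (sg b) σ := by
      refine hF' s _ σ hsF fun v hv => ?_
      simp only [hsg]
      rw [dif_pos hv]
      by_cases h1 : s v = 1
      · rw [if_pos ((hb ⟨v, hv⟩).2 h1), h1]
      · rw [if_neg (fun hc => h1 ((hb ⟨v, hv⟩).1 hc))]
        exact (hs v).resolve_left h1
    exact ⟨b, Subtype.ext (huniq (sg b) σ (f b) hσ (hf1 b) hσF (hf2 b))⟩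
  have := Cardinal.mk_congr (Equiv.ofBijective _ ⟨hinj, hsurj⟩)
  rw [← this, ← Cardinal.power_def, Cardinal.mk_bool]

end Pool.Agent.U708.EA
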