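import Pool.Agent.U708.EA.Base

/-!
# Uniqueness of the ground state pair by damping the bonds which cross sparse spheres
-/

set_option autoImplicit false

open Finset MeasureTheory ProbabilityTheory Filter Topology

namespace Pool.Agent.U708.EA

open Pool.Agent.R239.EA

variable {d : ℕ}

lemma pick_fin {Ω ι : Type*} [MeasurableSpace Ω] (P : Measure Ω) [IsProbabilityMeasure P]
    {B : Ω → ℝ} (hB : Measurable B) (hB0 : ∀ ω, 0 ≤ B ω) (f : ι → Ω → ℝ)
    (hf : ∀ i, Measurable (f i)) (s : Finset ι) (h0 : ∀ i ∈ s, ∀ᵐ ω ∂P, f i ω ≠ 0) :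
    ∀ ε : ENNReal, 0 < ε →
      ∃ δ : ℝ, 0 < δ ∧ δ ≤ 1 ∧ P {ω | ∃ i ∈ s, |f i ω| < δ * B ω} ≤ ε := by
  classical
  induction s using Finset.induction_on with
  | empty =>
    intro ε _
    refine ⟨1, one_pos, le_rfl, ?_⟩
    simp
  | insert a s ha ih =>
    intro ε hε
    have hε2 : 0 < ε / 2 := ENNReal.half_pos hε.ne'
    obtain ⟨δ1, h1, h2, h3⟩ := pick P (hf a) hB (h0 a (Finset.mem_insert_self _ _)) hε2
    obtain ⟨δ2, g1, g2, g3⟩ := ih (fun i hi => h0 i (Finset.mem_insert_of_mem hi)) (ε / 2) hε2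
    refine ⟨min δ1 δ2, lt_min h1 g1, (min_le_left _ _).trans h2, ?_⟩
    calc P {ω | ∃ i ∈ insert a s, |f i ω| < min δ1 δ2 * B ω}
        ≤ P ({ω | |f a ω| < δ1 * B ω} ∪ {ω | ∃ i ∈ s, |f i ω| < δ2 * B ω}) := by
          refine measure_mono ?_
          rintro ω ⟨i, hi, hlt⟩
          rcases Finset.mem_insert.1 hi with h | h
          · left
            rw [h] at hlt
            exact hlt.trans_le (mul_le_mul_of_nonneg_right (min_le_left _ _) (hB0 ω))
          · right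
            exact ⟨i, h, hlt.trans_le (mul_le_mul_of_nonneg_right (min_le_right _ _) (hB0 ω))⟩
      _ ≤ ε / 2 + ε / 2 := (measure_union_le _ _).trans (add_le_add h3 g3)
      _ = ε := ENNReal.add_halves ε

/-- the condition that a factor is small enough -/
def Small (R : Set ((Fin d → ℤ) × Fin d)) (n : ℕ) (w : (Fin d → ℤ) × Fin d → ℝ) (δ : ℝ)
    (J : (Fin d → ℤ) × Fin d → ℝ) : Prop :=
  ∀ T1 ∈ (ins d n).powerset, ∀ T2 ∈ (ins d n).powerset, Disjoint T1 T2 →
    (∃ e, e ∈ T1 ∨ e ∈ T2) →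
      δ * ∑ e ∈ crR R n, |J e| ≤ |∑ e ∈ T1, w e * J e - ∑ e ∈ T2, w e * J e|

variable (μ : Measure ℝ) [IsProbabilityMeasure μ]

lemma factor (hat : ∀ x, μ {x} = 0) (R : Set ((Fin d → ℤ) × Fin d)) (n : ℕ)
    (w : (Fin d → ℤ) × Fin d → ℝ) (hw : ∀ e, 0 < w e) {ε : ENNReal} (hε : 0 < ε) :
    ∃ δ : ℝ, 0 < δ ∧ δ ≤ 1 ∧ Lw μ d {J | ¬ Small R n w δ J} ≤ ε := by
  classical
  set S : Finset (Finset ((Fin d → ℤ) × Fin d) × Finset ((Fin d → ℤ) × Fin d)) :=
    ((ins d n).powerset ×ˢ (ins d n).powerset).filter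
      fun T => Disjoint T.1 T.2 ∧ ∃ e, e ∈ T.1 ∨ e ∈ T.2 with hS
  obtain ⟨δ, h1, h2, h3⟩ := pick_fin (Lw μ d) (B := fun J => ∑ e ∈ crR R n, |J e|)
    (by fun_prop) (fun J => Finset.sum_nonneg fun e _ => abs_nonneg _)
    (fun (T : Finset ((Fin d → ℤ) × Fin d) × Finset ((Fin d → ℤ) × Fin d)) J =>
      ∑ e ∈ T.1, w e * J e - ∑ e ∈ T.2, w e * J e) (fun T => by fun_prop) S
    (fun T hT => by
      rw [hS, Finset.mem_filter] at hT
      filter_upwards [gn_w μ hat w fun e => (hw e).ne'] with J hJ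
      exact sub_ne_zero.2 (hJ T.1 T.2 hT.2.1 hT.2.2)) ε hε
  refine ⟨δ, h1, h2, (measure_mono ?_).trans h3⟩
  intro J hJ
  simp only [Set.mem_ofPred_eq] at hJ ⊢
  unfold Small at hJ
  push Not at hJ
  obtain ⟨T1, hT1, T2, hT2, hdis, hex, hlt⟩ := hJ
  exact ⟨(T1, T2), by
    rw [hS, Finset.mem_filter, Finset.mem_product]
    exact ⟨⟨hT1, hT2⟩, hdis, hex⟩, hlt⟩

omit μ in
lemma cr_inj {r : ℕ → ℕ} (hr : StrictMono r) {j k : ℕ} {e : (Fin d → ℤ) × Fin d}
    (hj : e ∈ cr d (r j)) (hk : e ∈ cr d (r k)) : j = k := by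
  rw [mem_cr'] at hj hk
  apply hr.injective
  omega

omit μ in
lemma r_ge {r : ℕ → ℕ} (hr : StrictMono r) (k : ℕ) : k ≤ r k := hr.id_le k

/-- damping on the spheres of radii `r k`, outside `R` -/
theorem damp (hat : ∀ x, μ {x} = 0) {r : ℕ → ℕ} (hr : StrictMono r)
    (R : Set ((Fin d → ℤ) × Fin d)) (v : (Fin d → ℤ) × Fin d → ℝ) (hv : ∀ e, 0 < v e) :
    ∃ W : (Fin d → ℤ) × Fin d → ℝ, (∀ e, 0 < W e) ∧
      (∀ e, (∀ k, e ∉ crR R (r k)) → W e = v e) ∧
      (∀ e k, e ∈ crR R (r k) → W e ≤ 1) ∧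
      ∀ᵐ J ∂(Lw μ d), ∀ᶠ k in atTop, Iso R (r k) (fun e => W e * J e) := by
  classical
  have hF0 : ∀ (k : ℕ) (w : (Fin d → ℤ) × Fin d → ℝ), ∃ δ : ℝ, (∀ e, 0 < w e) →
      (0 < δ ∧ δ ≤ 1 ∧ Lw μ d {J | ¬ Small R (r k) w δ J} ≤ (1 / 2 : ENNReal) ^ k) := by
    intro k w
    by_cases hw : ∀ e, 0 < w e
    · obtain ⟨δ, h1, h2, h3⟩ := factor μ hat R (r k) w hw (ε := (1 / 2 : ENNReal) ^ k)
        (ENNReal.pow_pos (by simp) k)
      exact ⟨δ, fun _ => ⟨h1, h2, h3⟩⟩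
    · exact ⟨1, fun h => absurd h hw⟩
  choose F hF using hF0
  set w : ℕ → (Fin d → ℤ) × Fin d → ℝ := fun k => Nat.rec v
    (fun k wk e => if e ∈ crR R (r k) then F k wk else wk e) k with hwdef
  have w0 : ∀ e, w 0 e = v e := fun e => rfl
  have wS : ∀ k e, w (k + 1) e = if e ∈ crR R (r k) then F k (w k) else w k e := fun k e => rfl
  have wpos : ∀ k e, 0 < w k e := by
    intro k
    induction k with
    | zero => intro e; rw [w0]; exact hv e
    | succ k ih =>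
      intro e
      rw [wS]
      have h1 := hF k (w k) ih
      split_ifs
      · exact h1.1
      · exact ih e
  have stab : ∀ (m : ℕ) (e : (Fin d → ℤ) × Fin d), (∀ j, m ≤ j → e ∉ crR R (r j)) →
      ∀ k, m ≤ k → w k e = w m e := by
    intro m e hm k hk
    induction k, hk using Nat.le_induction with
    | base => rfl
    | succ k hk ih => rw [wS, if_neg (hm k hk), ih]
  set W : (Fin d → ℤ) × Fin d → ℝ := fun e => w (nrm e.1 + 2) e with hW
  have hlast : ∀ e : (Fin d → ℤ) × Fin d, ∀ j, nrm e.1 + 2 ≤ j → e ∉ crR R (r j) := by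
    intro e j hj he
    rw [mem_crR, mem_cr'] at he
    have := r_ge hr j
    omega
  have Weq : ∀ (m : ℕ) (e : (Fin d → ℤ) × Fin d), (∀ j, m ≤ j → e ∉ crR R (r j)) →
      W e = w m e := by
    intro m e hm
    have h1 := stab m e hm (max m (nrm e.1 + 2)) (le_max_left _ _)
    have h2 := stab (nrm e.1 + 2) e (hlast e) (max m (nrm e.1 + 2)) (le_max_right _ _)
    rw [h1] at h2
    exact h2.symm
  have Wins : ∀ k, ∀ e ∈ ins d (r k), W e = w k e := by
    intro k e he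
    refine Weq k e fun j hj hc => ?_
    rw [mem_crR, mem_cr'] at hc
    have h1 := mem_ins.1 he
    have h2 := hr.monotone hj
    omega
  have Wcr : ∀ k, ∀ e ∈ crR R (r k), W e = F k (w k) := by
    intro k e he
    rw [Weq (k + 1) e fun j hj hc => ?_, wS, if_pos he]
    have := cr_inj hr (mem_crR.1 hc).1 (mem_crR.1 he).1
    omega
  refine ⟨W, fun e => wpos (nrm e.1 + 2) e, fun e he => ?_, fun e k he => ?_, ?_⟩
  · rw [Weq 0 e (fun j _ => he j), w0]
  · rw [Wcr k e he]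
    exact (hF k (w k) (wpos k)).2.1
  · have hiso : ∀ k J, Small R (r k) (w k) (F k (w k)) J →
        Iso R (r k) (fun e => W e * J e) := by
      intro k J h T1 hT1 T2 hT2 hdis hex
      have h1 := h T1 hT1 T2 hT2 hdis hex
      have hpos := (hF k (w k) (wpos k)).1
      have e0 : ∑ e ∈ crR R (r k), |W e * J e| = F k (w k) * ∑ e ∈ crR R (r k), |J e| := by
        rw [Finset.mul_sum]
        refine Finset.sum_congr rfl fun e he => ?_
        rw [Wcr k e he, abs_mul, abs_of_pos hpos]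
      have e1 : ∑ e ∈ T1, W e * J e = ∑ e ∈ T1, w k e * J e :=
        Finset.sum_congr rfl fun e he => by rw [Wins k e (Finset.mem_powerset.1 hT1 he)]
      have e2 : ∑ e ∈ T2, W e * J e = ∑ e ∈ T2, w k e * J e :=
        Finset.sum_congr rfl fun e he => by rw [Wins k e (Finset.mem_powerset.1 hT2 he)]
      rw [e0, e1, e2]
      exact h1
    have hbc : ∀ᵐ J ∂(Lw μ d), ∀ᶠ k in atTop, J ∉ {J | ¬ Small R (r k) (w k) (F k (w k)) J} := by
      refine ae_eventually_notMem ?_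
      refine ne_top_of_le_ne_top ?_ (ENNReal.tsum_le_tsum fun k =>
        (hF k (w k) (wpos k)).2.2)
      rw [ENNReal.tsum_geometric]
      simp
    filter_upwards [hbc] with J hJ
    filter_upwards [hJ] with k hk
    refine hiso k J ?_
    by_contra hc
    exact hk hc

end Pool.Agent.U708.EA
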