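import Pool.Agent.U708.EA.Damp

/-!
# Straight rays of strong bonds
-/

set_option autoImplicit false

open Finset MeasureTheory ProbabilityTheory Filter Topology

namespace Pool.Agent.U708.EA

open Pool.Agent.R239.EA

variable {d : ℕ}

/-- the points of the ray -/
def pt (i0 : Fin d) (v : Fin d → ℤ) (t : ℕ) : Fin d → ℤ := v + (t : ℤ) • u i0

lemma pt_same (i0 : Fin d) (v : Fin d → ℤ) (t : ℕ) : pt i0 v t i0 = v i0 + t := by
  unfold pt
  rw [Pi.add_apply, Pi.smul_apply, u_same, smul_eq_mul, mul_one]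

lemma pt_ne {i0 i : Fin d} (h : i ≠ i0) (v : Fin d → ℤ) (t : ℕ) : pt i0 v t i = v i := by
  unfold pt
  rw [Pi.add_apply, Pi.smul_apply, u_ne h, smul_zero, add_zero]

lemma pt_inj {i0 : Fin d} {v v' : Fin d → ℤ} {t t' : ℕ} (hv : v i0 = 0) (hv' : v' i0 = 0)
    (h : pt i0 v t = pt i0 v' t') : v = v' ∧ t = t' := by
  have h1 := congrFun h i0
  rw [pt_same, pt_same, hv, hv'] at h1
  refine ⟨funext fun i => ?_, by omega⟩
  by_cases hi : i = i0
  · rw [hi, hv, hv']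
  · have h2 := congrFun h i
    rwa [pt_ne hi, pt_ne hi] at h2

lemma nx_pt (i0 : Fin d) (v : Fin d → ℤ) (t : ℕ) :
    nx ((pt i0 v t, i0) : (Fin d → ℤ) × Fin d) = pt i0 v (t + 1) := by
  unfold nx pt
  push_cast
  rw [add_smul, one_smul, add_assoc]

/-- the bonds of the rays -/
def rays (i0 : Fin d) (P : Set (Fin d → ℤ)) : Set ((Fin d → ℤ) × Fin d) :=
  {e | ∃ v ∈ P, ∃ t : ℕ, e = (pt i0 v t, i0)}

open Classical in
/-- the initial segment -/
noncomputable def seg (i0 : Fin d) (v : Fin d → ℤ) (t : ℕ) : Finset (Fin d → ℤ) :=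
  (Finset.range (t + 1)).image (pt i0 v)

lemma mem_seg {i0 : Fin d} {v : Fin d → ℤ} {t : ℕ} {x : Fin d → ℤ} :
    x ∈ seg i0 v t ↔ ∃ s, s ≤ t ∧ pt i0 v s = x := by
  classical
  unfold seg
  rw [Finset.mem_image]
  simp only [Finset.mem_range, Nat.lt_succ_iff]

lemma pt_mem_seg {i0 : Fin d} {v v' : Fin d → ℤ} {t s : ℕ} (hv : v i0 = 0) (hv' : v' i0 = 0) :
    pt i0 v' s ∈ seg i0 v t ↔ v' = v ∧ s ≤ t := by
  rw [mem_seg]
  constructor
  · rintro ⟨s', hs, h⟩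
    obtain ⟨h1, h2⟩ := pt_inj hv hv' h
    exact ⟨h1.symm, by omega⟩
  · rintro ⟨rfl, h⟩
    exact ⟨s, h, rfl⟩

open Classical in
/-- the bonds which leave the segment, without the next bond of the ray -/
noncomputable def sides (i0 : Fin d) (v : Fin d → ℤ) (t : ℕ) : Finset ((Fin d → ℤ) × Fin d) :=
  (dC_finite (seg i0 v t).finite_toSet).toFinset.erase (pt i0 v t, i0)

lemma mem_sides {i0 : Fin d} {v : Fin d → ℤ} {t : ℕ} {e : (Fin d → ℤ) × Fin d} :
    e ∈ sides i0 v t ↔ e ≠ (pt i0 v t, i0) ∧ e ∈ dC (seg i0 v t : Set (Fin d → ℤ)) := by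
  classical
  unfold sides
  rw [Finset.mem_erase, Set.Finite.mem_toFinset]

lemma bond_mem_dC {i0 : Fin d} {v : Fin d → ℤ} (hv : v i0 = 0) (t : ℕ) :
    ((pt i0 v t, i0) : (Fin d → ℤ) × Fin d) ∈ dC (seg i0 v t : Set (Fin d → ℤ)) := by
  unfold dC
  rw [Set.mem_ofPred_eq, nx_pt, Finset.mem_coe, Finset.mem_coe]
  simp only
  rw [pt_mem_seg hv hv, pt_mem_seg hv hv]
  simp

lemma sides_not_ray {i0 : Fin d} {P : Set (Fin d → ℤ)} (hP : ∀ v ∈ P, v i0 = 0)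
    {v : Fin d → ℤ} (hv : v ∈ P) {t : ℕ} {e : (Fin d → ℤ) × Fin d} (he : e ∈ sides i0 v t) :
    e ∉ rays i0 P := by
  rintro ⟨v', hv', s, rfl⟩
  rw [mem_sides] at he
  obtain ⟨h1, h2⟩ := he
  unfold dC at h2
  rw [Set.mem_ofPred_eq, nx_pt, Finset.mem_coe, Finset.mem_coe] at h2
  simp only at h2
  rw [pt_mem_seg (hP v hv) (hP v' hv'), pt_mem_seg (hP v hv) (hP v' hv')] at h2
  by_cases hvv : v' = v
  · subst hvv
    simp only [true_and] at h2
    have : s = t := by omega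
    subst this
    exact h1 rfl
  · simp [hvv] at h2

/-- a bond which beats the other bonds which leave the segment is satisfied -/
lemma sat {i0 : Fin d} {v : Fin d → ℤ} (hv : v i0 = 0) {t : ℕ} {B : Finset (Fin d → ℤ)}
    {K : (Fin d → ℤ) × Fin d → ℝ} {σ : (Fin d → ℤ) → ℝ} (hσ : GI B K σ)
    (hB : seg i0 v t ⊆ B) (h : ∑ e ∈ sides i0 v t, |K e| < |K (pt i0 v t, i0)|) :
    0 < K (pt i0 v t, i0) * (σ (pt i0 v t) * σ (pt i0 v (t + 1))) := by
  classical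
  have hne : (seg i0 v t).Nonempty := ⟨pt i0 v t, mem_seg.2 ⟨t, le_rfl, rfl⟩⟩
  have hfin := dC_finite (seg i0 v t).finite_toSet
  have h1 := hσ.2 _ hne hB
  rw [finsum_mem_eq_finite_toFinset_sum _ hfin] at h1
  have hmem : ((pt i0 v t, i0) : (Fin d → ℤ) × Fin d) ∈ hfin.toFinset :=
    hfin.mem_toFinset.2 (bond_mem_dC hv t)
  rw [← Finset.add_sum_erase _ _ hmem, nx_pt] at h1
  simp only at h1
  have h2 : ∑ e ∈ hfin.toFinset.erase (pt i0 v t, i0), K e * (σ e.1 * σ (nx e)) ≤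
      ∑ e ∈ sides i0 v t, |K e| := by
    have h3 : hfin.toFinset.erase (pt i0 v t, i0) = sides i0 v t := by
      unfold sides
      rfl
    rw [h3]
    refine Finset.sum_le_sum fun e _ => ?_
    rcases hσ.1 e.1 with a | a <;> rcases hσ.1 (nx e) with b | b <;> rw [a, b]
    · rw [mul_one, mul_one]; exact le_abs_self _
    · rw [one_mul, mul_neg, mul_one]; exact neg_le_abs _
    · rw [mul_one, mul_neg, mul_one]; exact neg_le_abs _
    · rw [neg_mul_neg, mul_one, mul_one]; exact le_abs_self _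
  by_contra hc
  push Not at hc
  have h4 : |K (pt i0 v t, i0)| = -(K (pt i0 v t, i0) * (σ (pt i0 v t) * σ (pt i0 v (t + 1)))) := by
    rw [← abs_of_nonpos hc, abs_mul]
    have : |σ (pt i0 v t) * σ (pt i0 v (t + 1))| = 1 := by
      rcases hσ.1 (pt i0 v t) with a | a <;> rcases hσ.1 (pt i0 v (t + 1)) with b | b <;>
        rw [a, b] <;> norm_num
    rw [this, mul_one]
  linarith

lemma pt_nrm {i0 : Fin d} {v : Fin d → ℤ} (hv : v i0 = 0) {t n : ℕ} :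
    nrm (pt i0 v t) ≤ n ↔ nrm v ≤ n ∧ t ≤ n := by
  rw [nrm_le, nrm_le]
  constructor
  · intro h
    refine ⟨fun i => ?_, ?_⟩
    · by_cases hi : i = i0
      · rw [hi, hv]; simp
      · have := h i
        rwa [pt_ne hi] at this
    · have := h i0
      rw [pt_same, hv, zero_add, abs_of_nonneg (Nat.cast_nonneg t)] at this
      exact_mod_cast this
  · rintro ⟨h1, h2⟩ i
    by_cases hi : i = i0
    · rw [hi, pt_same, hv, zero_add, abs_of_nonneg (Nat.cast_nonneg t)]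
      exact_mod_cast h2
    · rw [pt_ne hi]
      exact h1 i

lemma seg_sub {i0 : Fin d} {v : Fin d → ℤ} (hv : v i0 = 0) {t n : ℕ}
    (h : nrm (pt i0 v t) ≤ n) : seg i0 v t ⊆ bx 0 n := by
  intro x hx
  obtain ⟨s, hs, rfl⟩ := mem_seg.1 hx
  rw [mem_bx, sub_zero, pt_nrm hv]
  rw [pt_nrm hv] at h
  exact ⟨h.1, hs.trans h.2⟩

/-- the bonds of the rays which cross a sphere -/
lemma cross {i0 : Fin d} {P : Set (Fin d → ℤ)} (hP : ∀ v ∈ P, v i0 = 0) {n : ℕ}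
    {e : (Fin d → ℤ) × Fin d} (he : e ∈ cr d n) (hr : e ∈ rays i0 P) :
    ∃ v ∈ P, e = (pt i0 v n, i0) := by
  obtain ⟨v, hv, t, rfl⟩ := hr
  refine ⟨v, hv, ?_⟩
  rw [mem_cr, nx_pt] at he
  simp only at he
  rw [pt_nrm (hP v hv), pt_nrm (hP v hv)] at he
  have : t = n := by omega
  rw [this]

/-! ### Choice of the strong weights -/

variable (μ : Measure ℝ) [IsProbabilityMeasure μ]

lemma J_ne (hat : ∀ x, μ {x} = 0) (e : (Fin d → ℤ) × Fin d) : ∀ᵐ J ∂(Lw μ d), J e ≠ 0 := by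
  classical
  filter_upwards [gn_ae (d := d) μ hat] with J hJ
  have := hJ {e} ∅ (Finset.disjoint_empty_right _) ⟨e, Or.inl (Finset.mem_singleton_self e)⟩
  simpa using this

theorem strong (hat : ∀ x, μ {x} = 0) (i0 : Fin d) :
    ∃ a : (Fin d → ℤ) × ℕ → ℝ, (∀ p, 1 ≤ a p) ∧
      ∀ᵐ J ∂(Lw μ d), ∃ T0 : ℕ, ∀ (v : Fin d → ℤ) (t : ℕ), T0 ≤ t →
        ∑ e ∈ sides i0 v t, |J e| < a (v, t) * |J (pt i0 v t, i0)| := by
  classical
  obtain ⟨ε, hε0, hε⟩ := ENNReal.exists_pos_tsum_mul_lt_of_countable (ι := (Fin d → ℤ) × ℕ)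
    (ε := 1) one_ne_zero (fun _ => 1) (fun _ => ENNReal.one_ne_top)
  have h0 : ∀ p : (Fin d → ℤ) × ℕ, ∃ δ : ℝ, 0 < δ ∧ δ ≤ 1 ∧
      Lw μ d {J | |J (pt i0 p.1 p.2, i0)| < δ * (∑ e ∈ sides i0 p.1 p.2, |J e| + 1)} ≤ ε p := by
    intro p
    exact pick (Lw μ d) (f := fun J => J (pt i0 p.1 p.2, i0))
      (B := fun J => ∑ e ∈ sides i0 p.1 p.2, |J e| + 1) (by fun_prop) (by fun_prop)
      (J_ne μ hat _) (by exact_mod_cast hε0 p)
  choose δ hδ0 hδ1 hδ using h0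
  refine ⟨fun p => 1 / δ p, fun p => ?_, ?_⟩
  · rw [le_div_iff₀ (hδ0 p), one_mul]; exact hδ1 p
  · have h1 := ae_finite_setOfPred_mem (μ := Lw μ d)
      (s := fun p : (Fin d → ℤ) × ℕ =>
        {J | |J (pt i0 p.1 p.2, i0)| < δ p * (∑ e ∈ sides i0 p.1 p.2, |J e| + 1)}) (by
        refine ne_top_of_le_ne_top ENNReal.one_ne_top ((ENNReal.tsum_le_tsum hδ).trans ?_)
        simp only [one_mul] at hε
        exact hε.le)
    filter_upwards [h1] with J hJ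
    refine ⟨hJ.toFinset.sup (fun p => p.2 + 1), fun v t ht => ?_⟩
    have h2 : ¬ |J (pt i0 v t, i0)| < δ (v, t) * (∑ e ∈ sides i0 v t, |J e| + 1) := by
      intro hc
      have h3 : (v, t) ∈ hJ.toFinset := hJ.mem_toFinset.2 hc
      have h4 := Finset.le_sup (f := fun p : (Fin d → ℤ) × ℕ => p.2 + 1) h3
      simp only at h4
      omega
    push Not at h2
    rw [one_div, inv_mul_eq_div, lt_div_iff₀ (hδ0 _)]
    have := hδ0 (v, t)
    nlinarith

end Pool.Agent.U708.EA
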