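import Pool.Agent.U708.EA.Ray

/-!
# All ground states: one for every choice of signs of the rays
-/

set_option autoImplicit false

open Finset MeasureTheory ProbabilityTheory Filter Topology

namespace Pool.Agent.U708.EA

open Pool.Agent.R239.EA

variable {d : ℕ}

lemma compact_one {K : (Fin d → ℤ) × Fin d → ℝ} (C : Set (Fin d → ℤ)) (κ : (Fin d → ℤ) → ℝ)
    (h : ∀ n : ℕ, ∃ σ, GI (bx 0 n) K σ ∧ ∀ x ∈ C, x ∈ bx 0 n → σ x = κ x) :
    ∃ σ, GA K σ ∧ ∀ x ∈ C, σ x = κ x := by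
  classical
  set F : ℕ → Set ((Fin d → ℤ) → Bool × Bool) := fun n => {f | GI (bx 0 n) K (s1 f) ∧
    ∀ x ∈ C, x ∈ bx 0 n → s1 f x = κ x} with hF
  have hclosed : ∀ n, IsClosed (F n) := by
    intro n
    refine closed_of_dep (bx 0 (n + 1)) ?_
    rintro f f' hff ⟨h1, h2⟩
    have e1 : ∀ x ∈ bx (0 : Fin d → ℤ) (n + 1), s1 f x = s1 f' x := by
      intro x hx
      unfold s1
      rw [hff x hx]
    have hs : bx (0 : Fin d → ℤ) n ⊆ bx 0 (n + 1) := bx_sub (by rw [sub_self, nrm_zero]; omega)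
    exact ⟨GI_congr (fun _ _ => rfl) e1 (s1_pm f') h1, fun x hx hxn => by
      rw [← e1 x (hs hxn)]
      exact h2 x hx hxn⟩
  have hmono : ∀ n, F (n + 1) ⊆ F n := by
    rintro n f ⟨h1, h2⟩
    have hs : bx (0 : Fin d → ℤ) n ⊆ bx 0 (n + 1) := bx_sub (by rw [sub_self, nrm_zero]; omega)
    exact ⟨h1.mono hs, fun x hx hxn => h2 x hx (hs hxn)⟩
  have hne : ∀ n, (F n).Nonempty := by
    intro n
    obtain ⟨σ, h1, h2⟩ := h n
    obtain ⟨f, hf1, -⟩ := to_bool σ σ h1.1 h1.1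
    refine ⟨f, ?_⟩
    simp only [hF, Set.mem_ofPred_eq, hf1]
    exact ⟨h1, h2⟩
  obtain ⟨f, hf⟩ := IsCompact.nonempty_iInter_of_sequence_nonempty_isCompact_isClosed F hmono hne
    (hclosed 0).isCompact hclosed
  rw [Set.mem_iInter] at hf
  refine ⟨s1 f, fun n => (hf n).1, fun x hx => (hf (nrm x)).2 x hx ?_⟩
  rw [mem_bx, sub_zero]

/-- the sign of the couplings on the first bonds of the ray -/
noncomputable def sgn (i0 : Fin d) (J : (Fin d → ℤ) × Fin d → ℝ) (v : Fin d → ℤ) (t : ℕ) : ℝ :=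
  ∏ i ∈ Finset.range t, Real.sign (J (pt i0 v i, i0))

lemma sign_pm {x : ℝ} (h : x ≠ 0) : Real.sign x = 1 ∨ Real.sign x = -1 := by
  rcases lt_or_gt_of_ne h with h | h
  · right; exact Real.sign_of_neg h
  · left; exact Real.sign_of_pos h

lemma sgn_pm {i0 : Fin d} {J : (Fin d → ℤ) × Fin d → ℝ} (hJ : ∀ e, J e ≠ 0) (v : Fin d → ℤ)
    (t : ℕ) : sgn i0 J v t = 1 ∨ sgn i0 J v t = -1 := by
  unfold sgn
  induction t with
  | zero => simp
  | succ t ih =>
    rw [Finset.prod_range_succ]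
    rcases ih with h | h <;> rcases sign_pm (hJ (pt i0 v t, i0)) with h' | h' <;> rw [h, h'] <;>
      norm_num

lemma sgn_succ (i0 : Fin d) (J : (Fin d → ℤ) × Fin d → ℝ) (v : Fin d → ℤ) (t : ℕ) :
    sgn i0 J v (t + 1) = sgn i0 J v t * Real.sign (J (pt i0 v t, i0)) := by
  unfold sgn
  rw [Finset.prod_range_succ]

/-- the configuration follows the signs `s` along the rays -/
def Fol (i0 : Fin d) (P : Set (Fin d → ℤ)) (J : (Fin d → ℤ) × Fin d → ℝ)
    (s σ : (Fin d → ℤ) → ℝ) : Prop :=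
  ∀ v ∈ P, ∀ᶠ t : ℕ in atTop, σ (pt i0 v t) = s v * sgn i0 J v t

lemma foot {i0 : Fin d} {v : Fin d → ℤ} (hv : v i0 = 0) (t : ℕ) :
    Function.update (pt i0 v t) i0 0 = v := by
  funext i
  by_cases hi : i = i0
  · subst hi; rw [Function.update_self, hv]
  · rw [Function.update_of_ne hi, pt_ne hi]

open Classical in
/-- boundary condition which satisfies the bonds of the rays -/
noncomputable def kap (i0 : Fin d) (P : Set (Fin d → ℤ)) (J : (Fin d → ℤ) × Fin d → ℝ)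
    (s : (Fin d → ℤ) → ℝ) (x : Fin d → ℤ) : ℝ :=
  if Function.update x i0 0 ∈ P then
    s (Function.update x i0 0) * sgn i0 J (Function.update x i0 0) (x i0).toNat
  else 1

lemma kap_pm {i0 : Fin d} {P : Set (Fin d → ℤ)} {J : (Fin d → ℤ) × Fin d → ℝ}
    (hJ : ∀ e, J e ≠ 0) {s : (Fin d → ℤ) → ℝ} (hs : ∀ v, s v = 1 ∨ s v = -1) (x : Fin d → ℤ) :
    kap i0 P J s x = 1 ∨ kap i0 P J s x = -1 := by
  unfold kap
  split_ifs
  · rcases hs (Function.update x i0 0) with h | h <;>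
      rcases sgn_pm (i0 := i0) hJ (Function.update x i0 0) (x i0).toNat with h' | h' <;>
      rw [h, h'] <;> norm_num
  · simp

lemma kap_pt {i0 : Fin d} {P : Set (Fin d → ℤ)} {J : (Fin d → ℤ) × Fin d → ℝ}
    {s : (Fin d → ℤ) → ℝ} {v : Fin d → ℤ} (hv : v i0 = 0) (hvP : v ∈ P) (t : ℕ) :
    kap i0 P J s (pt i0 v t) = s v * sgn i0 J v t := by
  unfold kap
  rw [foot hv, if_pos hvP, pt_same, hv, zero_add, Int.toNat_natCast]

/-- everything that is needed about the couplings -/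
structure Good (i0 : Fin d) (P : Set (Fin d → ℤ)) (r : ℕ → ℕ)
    (W J : (Fin d → ℤ) × Fin d → ℝ) (T0 : ℕ) : Prop where
  pos : ∀ e, 0 < W e
  ne : ∀ e, J e ≠ 0
  gn : Gn (fun e => W e * J e)
  beat : ∀ v ∈ P, ∀ t, T0 ≤ t →
    ∑ e ∈ sides i0 v t, |W e * J e| < |W (pt i0 v t, i0) * J (pt i0 v t, i0)|
  iso : ∀ᶠ k in atTop, Iso (rays i0 P) (r k) (fun e => W e * J e)

section

variable {i0 : Fin d} {P : Set (Fin d → ℤ)} {r : ℕ → ℕ} {W J : (Fin d → ℤ) × Fin d → ℝ} {T0 : ℕ}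

/-- satisfied bonds -/
lemma next_of_sat (hG : Good i0 P r W J T0) {σ : (Fin d → ℤ) → ℝ}
    (hσ : ∀ x, σ x = 1 ∨ σ x = -1) {v : Fin d → ℤ} {t : ℕ}
    (h : 0 < W (pt i0 v t, i0) * J (pt i0 v t, i0) * (σ (pt i0 v t) * σ (pt i0 v (t + 1)))) :
    σ (pt i0 v (t + 1)) = σ (pt i0 v t) * Real.sign (J (pt i0 v t, i0)) := by
  have h1 := hG.pos (pt i0 v t, i0)
  have h2 : 0 < J (pt i0 v t, i0) * (σ (pt i0 v t) * σ (pt i0 v (t + 1))) := by
    rw [mul_assoc] at h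
    exact (mul_pos_iff_of_pos_left h1).1 h
  rcases lt_or_gt_of_ne (hG.ne (pt i0 v t, i0)) with h3 | h3
  · rw [Real.sign_of_neg h3]
    rcases hσ (pt i0 v t) with a | a <;> rcases hσ (pt i0 v (t + 1)) with b | b <;>
      rw [a, b] at h2 <;> rw [a, b] <;> first | (exfalso; linarith) | norm_num
  · rw [Real.sign_of_pos h3]
    rcases hσ (pt i0 v t) with a | a <;> rcases hσ (pt i0 v (t + 1)) with b | b <;>
      rw [a, b] at h2 <;> rw [a, b] <;> first | (exfalso; linarith) | norm_num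

lemma next_box (hP : ∀ v ∈ P, v i0 = 0) (hG : Good i0 P r W J T0) {σ : (Fin d → ℤ) → ℝ} {n : ℕ}
    (hσ : GI (bx 0 n) (fun e => W e * J e) σ) {v : Fin d → ℤ} (hv : v ∈ P) {t : ℕ} (ht : T0 ≤ t)
    (hin : nrm (pt i0 v t) ≤ n) :
    σ (pt i0 v (t + 1)) = σ (pt i0 v t) * Real.sign (J (pt i0 v t, i0)) :=
  next_of_sat hG hσ.1 (sat (hP v hv) hσ (seg_sub (hP v hv) hin) (hG.beat v hv t ht))

lemma next_all (hP : ∀ v ∈ P, v i0 = 0) (hG : Good i0 P r W J T0) {σ : (Fin d → ℤ) → ℝ}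
    (hσ : GA (fun e => W e * J e) σ) {v : Fin d → ℤ} (hv : v ∈ P) {t : ℕ} (ht : T0 ≤ t) :
    σ (pt i0 v (t + 1)) = σ (pt i0 v t) * Real.sign (J (pt i0 v t, i0)) :=
  next_box hP hG (hσ (nrm (pt i0 v t))) hv ht le_rfl

/-- every ground state follows some signs -/
lemma fol_of (hP : ∀ v ∈ P, v i0 = 0) (hG : Good i0 P r W J T0) {σ : (Fin d → ℤ) → ℝ}
    (hσ : GA (fun e => W e * J e) σ) :
    ∃ s : (Fin d → ℤ) → ℝ, (∀ v, s v = 1 ∨ s v = -1) ∧
      ∀ v ∈ P, ∀ t, T0 ≤ t → σ (pt i0 v t) = s v * sgn i0 J v t := by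
  refine ⟨fun v => σ (pt i0 v T0) * sgn i0 J v T0, fun v => ?_, fun v hv t ht => ?_⟩
  · show σ (pt i0 v T0) * sgn i0 J v T0 = 1 ∨ σ (pt i0 v T0) * sgn i0 J v T0 = -1
    rcases (hσ 0).1 (pt i0 v T0) with h | h <;> rcases sgn_pm (i0 := i0) hG.ne v T0 with h' | h' <;>
      rw [h, h'] <;> norm_num
  · induction t, ht using Nat.le_induction with
    | base =>
      show σ (pt i0 v T0) = σ (pt i0 v T0) * sgn i0 J v T0 * sgn i0 J v T0
      rw [mul_assoc]
      rcases sgn_pm (i0 := i0) hG.ne v T0 with h' | h' <;> rw [h'] <;> norm_num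
    | succ t ht ih =>
      rw [next_all hP hG hσ hv ht, ih, sgn_succ]
      ring

/-- a ground state for all signs -/
lemma exists_fol (hd : 2 ≤ d) (hP : ∀ v ∈ P, v i0 = 0) (hG : Good i0 P r W J T0)
    {s : (Fin d → ℤ) → ℝ} (hs : ∀ v, s v = 1 ∨ s v = -1) :
    ∃ σ, GA (fun e => W e * J e) σ ∧ Fol i0 P J s σ := by
  obtain ⟨σ, h1, h2⟩ := compact_one (K := fun e => W e * J e)
    {x | ∃ v ∈ P, ∃ t, T0 ≤ t ∧ x = pt i0 v t} (kap i0 P J s) (fun n => by
      obtain ⟨σ, hσ, hout⟩ := exists_box_bc hd hG.gn (kap_pm (i0 := i0) (P := P) hG.ne hs) n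
      refine ⟨σ, hσ, ?_⟩
      rintro x ⟨v, hv, t, ht, rfl⟩ -
      have key : ∀ k t : ℕ, T0 ≤ t → n + 1 ≤ t + k →
          σ (pt i0 v t) = kap i0 P J s (pt i0 v t) := by
        intro k
        induction k with
        | zero =>
          intro t _ h
          apply hout
          rw [mem_bx, sub_zero, pt_nrm (hP v hv)]
          omega
        | succ k ih =>
          intro t ht h
          by_cases hin : nrm (pt i0 v t) ≤ n
          · have h3 := ih (t + 1) (by omega) (by omega)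
            have h4 := next_box hP hG hσ hv ht hin
            rw [h4, kap_pt (hP v hv) hv, sgn_succ, ← mul_assoc] at h3
            rw [kap_pt (hP v hv) hv]
            have h5 : Real.sign (J (pt i0 v t, i0)) ≠ 0 := by
              rcases sign_pm (hG.ne (pt i0 v t, i0)) with h | h <;> rw [h] <;> norm_num
            exact mul_right_cancel₀ h5 h3
          · apply hout
            rw [mem_bx, sub_zero]
            exact hin
      exact key (n + 1) t ht (by omega))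
  refine ⟨σ, h1, fun v hv => ?_⟩
  filter_upwards [eventually_ge_atTop T0] with t ht
  rw [h2 _ ⟨v, hv, t, ht, rfl⟩, kap_pt (hP v hv) hv]

/-- ground states which agree along the rays are equal up to the sign -/
lemma congr_fol (hP : ∀ v ∈ P, v i0 = 0) (hr : StrictMono r) (hG : Good i0 P r W J T0)
    {σ τ : (Fin d → ℤ) → ℝ} (hσ : GA (fun e => W e * J e) σ) (hτ : GA (fun e => W e * J e) τ)
    (h : ∀ v ∈ P, ∃ᶠ t : ℕ in atTop, σ (pt i0 v t) = τ (pt i0 v t)) :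
    dC {x | σ x ≠ τ x} = ∅ := by
  have hall : ∀ v ∈ P, ∀ t, T0 ≤ t → σ (pt i0 v t) = τ (pt i0 v t) := by
    intro v hv t ht
    obtain ⟨s, -, h1⟩ := fol_of hP hG hσ
    obtain ⟨s', -, h2⟩ := fol_of hP hG hτ
    obtain ⟨t', ht', h3⟩ := ((h v hv).and_eventually (eventually_ge_atTop T0)).exists
    rw [h1 v hv t' h3, h2 v hv t' h3] at ht'
    have h4 : sgn i0 J v t' ≠ 0 := by
      rcases sgn_pm (i0 := i0) hG.ne v t' with h | h <;> rw [h] <;> norm_num
    rw [h1 v hv t ht, h2 v hv t ht, mul_right_cancel₀ h4 ht']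
  rw [Set.eq_empty_iff_forall_notMem]
  intro e
  obtain ⟨K0, hK0⟩ := eventually_atTop.1 hG.iso
  have h1 := hK0 (K0 + T0 + nrm e.1 + 1) (by omega)
  have h2 := r_ge hr (K0 + T0 + nrm e.1 + 1)
  refine iso_agree hσ hτ h1 ?_ ?_
  · intro f hf hfr
    obtain ⟨v, hv, rfl⟩ := cross hP hf hfr
    rw [nx_pt]
    exact ⟨hall v hv _ (by omega), hall v hv _ (by omega)⟩
  · rw [mem_ins]
    have h3 := nrm_step e
    omega

lemma uniq_fol (hP : ∀ v ∈ P, v i0 = 0) (hr : StrictMono r) (hG : Good i0 P r W J T0)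
    (hne : P.Nonempty) {s : (Fin d → ℤ) → ℝ} {σ τ : (Fin d → ℤ) → ℝ}
    (hσ : GA (fun e => W e * J e) σ) (hτ : GA (fun e => W e * J e) τ)
    (h1 : Fol i0 P J s σ) (h2 : Fol i0 P J s τ) : τ = σ := by
  have h3 : ∀ v ∈ P, ∀ᶠ t : ℕ in atTop, σ (pt i0 v t) = τ (pt i0 v t) := by
    intro v hv
    filter_upwards [h1 v hv, h2 v hv] with t a b
    rw [a, b]
  have h4 := congr_fol hP hr hG hσ hτ (fun v hv => (h3 v hv).frequently)
  rcases congruent (hσ 0).1 (hτ 0).1 h4 with h | h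
  · exact h
  · exfalso
    obtain ⟨v, hv⟩ := hne
    obtain ⟨t, ht⟩ := (h3 v hv).exists
    rw [h, Pi.neg_apply] at ht
    rcases (hσ 0).1 (pt i0 v t) with a | a <;> rw [a] at ht <;> norm_num at ht

end

variable (μ : Measure ℝ) [IsProbabilityMeasure μ]

open Classical in
/-- the weights before the damping -/
noncomputable def v0 (i0 : Fin d) (P : Set (Fin d → ℤ)) (a : (Fin d → ℤ) × ℕ → ℝ)
    (e : (Fin d → ℤ) × Fin d) : ℝ :=
  if e ∈ rays i0 P then a (Function.update e.1 i0 0, (e.1 i0).toNat) else 1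

theorem main (hat : ∀ x, μ {x} = 0) (i0 : Fin d) {r : ℕ → ℕ} (hr : StrictMono r)
    (P : Set (Fin d → ℤ)) (hP : ∀ v ∈ P, v i0 = 0) :
    ∃ W : (Fin d → ℤ) × Fin d → ℝ, (∀ e, 0 < W e) ∧ (∀ e ∈ rays i0 P, 1 ≤ W e) ∧
      (∀ e, e ∉ rays i0 P → W e ≤ 1) ∧
      (∀ e, e ∉ rays i0 P → (∀ k, e ∉ cr d (r k)) → W e = 1) ∧
      ∀ᵐ J ∂(Lw μ d), ∃ T0, Good i0 P r W J T0 := by
  classical
  obtain ⟨a, ha1, ha⟩ := strong (d := d) μ hat i0
  have hv0 : ∀ e, 0 < v0 i0 P a e := by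
    intro e
    unfold v0
    split_ifs
    · exact lt_of_lt_of_le one_pos (ha1 _)
    · exact one_pos
  obtain ⟨W, h1, h2, h3, h4⟩ := damp μ hat hr (rays i0 P) (v0 i0 P a) hv0
  have hray : ∀ e ∈ rays i0 P, W e = v0 i0 P a e := by
    intro e he
    exact h2 e fun k hk => (mem_crR.1 hk).2 he
  have hoff : ∀ e, e ∉ rays i0 P → W e ≤ 1 := by
    intro e he
    by_cases hk : ∃ k, e ∈ crR (rays i0 P) (r k)
    · obtain ⟨k, hk⟩ := hk
      exact h3 e k hk
    · push Not at hk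
      rw [h2 e hk]
      unfold v0
      rw [if_neg he]
  refine ⟨W, h1, fun e he => ?_, hoff, fun e he hk => ?_, ?_⟩
  · rw [hray e he]
    unfold v0
    rw [if_pos he]
    exact ha1 _
  · rw [h2 e fun k hc => hk k (mem_crR.1 hc).1]
    unfold v0
    rw [if_neg he]
  · have hJne : ∀ᵐ J ∂(Lw μ d), ∀ e, J e ≠ 0 := by
      rw [ae_all_iff]
      exact fun e => J_ne μ hat e
    filter_upwards [ha, h4, hJne, gn_w μ hat W fun e => (h1 e).ne'] with J hJ hiso hne hg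
    obtain ⟨T0, hT0⟩ := hJ
    refine ⟨T0, h1, hne, hg, fun v hv t ht => ?_, hiso⟩
    have hb : ((pt i0 v t, i0) : (Fin d → ℤ) × Fin d) ∈ rays i0 P := ⟨v, hv, t, rfl⟩
    have hWb : W (pt i0 v t, i0) = a (v, t) := by
      rw [hray _ hb]
      unfold v0
      rw [if_pos hb]
      simp only
      rw [foot (hP v hv), pt_same, hP v hv, zero_add, Int.toNat_natCast]
    rw [hWb, abs_mul, abs_of_pos (lt_of_lt_of_le one_pos (ha1 _))]
    refine lt_of_le_of_lt (Finset.sum_le_sum fun e he => ?_) (hT0 v t ht)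
    have h5 := sides_not_ray hP hv he
    rw [abs_mul, abs_of_pos (h1 e)]
    exact mul_le_of_le_one_left (abs_nonneg _) (hoff e h5)

end Pool.Agent.U708.EA
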